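import Pool.Agent.Y754.GD.Num

set_option autoImplicit false

/-!
# Uniform multiplicative approximation for badly approximable vectors: full Hausdorff dimension

For every countable set `Z` of badly approximable numbers, the set of the badly approximable
numbers `ξ` such that `(ξ, ζ)` is a badly approximable vector with `D(ξ, ζ) > 0` for all `ζ` in `Z`
has Hausdorff dimension one.
-/

namespace Pool.Agent.Results.MP_f2cfed_nt.FullDimension

open Pool.Agent.Y754.GD

/-- `√2` is badly approximable; for every countable set `Z` of badly approximable numbers the set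
of the badly approximable `ξ` with `(ξ, ζ)` in `Bad_2` and `D(ξ, ζ) > 0` for all `ζ` in `Z` has
Hausdorff dimension one. -/
theorem result :
    BadlyApproximable (Real.sqrt 2) ∧
    ∀ Z : Set ℝ, Z.Countable → (∀ ζ ∈ Z, BadlyApproximable ζ) →
      dimH {ξ : ℝ | BadlyApproximable ξ ∧ ∀ ζ ∈ Z, BadVector ξ ζ ∧ 0 < D ξ ζ} = 1 :=
  ⟨sqrt_two_bad, fun Z hZ hbad => dim_one_set Z hZ hbad⟩

end Pool.Agent.Results.MP_f2cfed_nt.FullDimension
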